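import Mathlib

/-!
Weakening relations on a poset, their composition and implication; representable weakening
implication semigroups.
-/

namespace Pool.Agent.R619.Wis

/-- Relational composition. -/
def comp {X : Type} (R S : Set (X × X)) : Set (X × X) :=
  {p | ∃ y, (p.1, y) ∈ R ∧ (y, p.2) ∈ S}

/-- The order relation of a poset as a set of pairs. -/
def leRel (X : Type) [PartialOrder X] : Set (X × X) := {p | p.1 ≤ p.2}

/-- Weakening relations: `≤ ; R ; ≤ ⊆ R`. -/
def IsWeakening {X : Type} [PartialOrder X] (R : Set (X × X)) : Prop :=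
  comp (comp (leRel X) R) (leRel X) ⊆ R

/-- The implication of two (weakening) relations on a poset. -/
def impl {X : Type} [PartialOrder X] (R S : Set (X × X)) : Set (X × X) :=
  {p | ∀ x' y' : X, (x' ≤ p.1 ∧ p.2 ≤ y' ∧ (x', y') ∈ R) → (x', y') ∈ S}

/-- `h` is a representation of the algebra `(A, mul, imp)` over the poset `X`: an isomorphism of
the algebra onto an algebra of weakening relations on `X` with composition and implication. -/
structure IsRep {A X : Type} [PartialOrder X] (mul imp : A → A → A)
    (h : A → Set (X × X)) : Prop where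
  inj : Function.Injective h
  weak : ∀ a, IsWeakening (h a)
  map_mul : ∀ a b, h (mul a b) = comp (h a) (h b)
  map_imp : ∀ a b, h (imp a b) = impl (h a) (h b)

/-- `(A, mul, imp)` is a representable weakening implication semigroup. -/
def RWIS {A : Type} (mul imp : A → A → A) : Prop :=
  ∃ (X : Type) (_ : PartialOrder X) (h : A → Set (X × X)), IsRep mul imp h

/-- `(A, mul, imp)` has a finite representation. -/
def FinRWIS {A : Type} (mul imp : A → A → A) : Prop :=
  ∃ (X : Type) (_ : PartialOrder X) (h : A → Set (X × X)), Finite X ∧ IsRep mul imp h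

theorem isWeakening_iff {X : Type} [PartialOrder X] (R : Set (X × X)) :
    IsWeakening R ↔ ∀ x x' y y', x' ≤ x → y ≤ y' → (x, y) ∈ R → (x', y') ∈ R := by
  constructor
  · intro h x x' y y' hx hy hR
    apply h
    exact ⟨y, ⟨x, hx, hR⟩, hy⟩
  · rintro h ⟨a, b⟩ ⟨y, ⟨x, hx, hR⟩, hy⟩
    exact h x a y b hx hy hR

/-- The class is closed under subalgebras (embeddings). -/
theorem RWIS.of_embedding {A B : Type} {mulA impA : A → A → A} {mulB impB : B → B → B}
    (f : A → B) (hf : Function.Injective f) (hm : ∀ a b, f (mulA a b) = mulB (f a) (f b))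
    (hi : ∀ a b, f (impA a b) = impB (f a) (f b)) (h : RWIS mulB impB) : RWIS mulA impA := by
  obtain ⟨X, iX, h, hh⟩ := h
  refine ⟨X, iX, fun a => h (f a), ?_, ?_, ?_, ?_⟩
  · exact hh.inj.comp hf
  · exact fun a => hh.weak _
  · intro a b
    simp only [hm, hh.map_mul]
  · intro a b
    simp only [hi, hh.map_imp]

end Pool.Agent.R619.Wis
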