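import Mathlib
import Pool.Agent.R619.Wis.Defs

/-!
The two extension steps of the step-by-step construction of a representation.
-/

namespace Pool.Agent.R619.Wis

/-- Data on the labels (upper sets of a poset `W`). -/
structure Lab (W : Type) [PartialOrder W] (ι : Type) where
  Q : ι → Set W
  P : ι → Set W
  n : Set W
  c : Set W
  pt : W
  n_upper : IsUpperSet n
  P_upper : ∀ j, IsUpperSet (P j)
  nQ : ∀ j w, w ∈ n → w ∉ Q j
  nc : ∀ w, w ∈ n → w ∉ c
  pt_n : pt ∈ n
  pt_P : ∀ j, pt ∈ P j

variable {W : Type} [PartialOrder W] {ι : Type}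

/-- The invariants of the construction. -/
structure Inv (L : Lab W ι) {X : Type} (le : X → X → Prop) (S : X → X → Set W) : Prop where
  refl : ∀ x, le x x
  trans : ∀ x y z, le x y → le y z → le x z
  antisymm : ∀ x y, le x y → le y x → x = y
  upper : ∀ x y, IsUpperSet (S x y)
  nonempty : ∀ x y, (S x y).Nonempty
  m1 : ∀ x' x y, le x' x → S x' y ⊆ S x y
  m2 : ∀ x y y', le y y' → S x y' ⊆ S x y
  nn : ∀ x y, le x y → S x y ⊆ L.n
  pp : ∀ x y z j, S x y ⊆ L.Q j → S y z ⊆ L.c → S x z ⊆ L.P j

theorem Inv.comap {L : Lab W ι} {X Y : Type} {le : X → X → Prop} {S : X → X → Set W}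
    (h : Inv L le S) (f : Y → X) (hf : Function.Injective f) :
    Inv L (fun a b => le (f a) (f b)) (fun a b => S (f a) (f b)) where
  refl x := h.refl _
  trans x y z := h.trans _ _ _
  antisymm x y h1 h2 := hf (h.antisymm _ _ h1 h2)
  upper x y := h.upper _ _
  nonempty x y := h.nonempty _ _
  m1 x' x y := h.m1 _ _ _
  m2 x y y' := h.m2 _ _ _
  nn x y := h.nn _ _
  pp x y z j := h.pp _ _ _ j

section StepW

variable (L : Lab W ι) {X : Type} (le : X → X → Prop) (S : X → X → Set W)

/-- The order after a step of the first kind. -/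
def leW : Option X → Option X → Prop
  | some a, some b => le a b
  | none, none => True
  | _, _ => False

/-- The new labels towards the new point. -/
def labA (x : X) (S1 : Set W) (a : X) : Set W :=
  {w | (le a x → w ∈ S1) ∧ ∀ j, S1 ⊆ L.c → S a x ⊆ L.Q j → w ∈ L.P j}

/-- The new labels from the new point. -/
def labB (z : X) (S2 : Set W) (b : X) : Set W :=
  {w | (le z b → w ∈ S2) ∧ ∀ j, S2 ⊆ L.Q j → S z b ⊆ L.c → w ∈ L.P j}

/-- The label of the new point. -/
def labC (x z : X) (S1 S2 : Set W) : Set W :=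
  {w | w ∈ L.n ∧ ∀ j, S2 ⊆ L.Q j → S1 ⊆ L.c → le z x → w ∈ L.P j}

/-- The labels after a step of the first kind. -/
def SW (x z : X) (S1 S2 : Set W) : Option X → Option X → Set W
  | some a, some b => S a b
  | some a, none => labA L le S x S1 a
  | none, some b => labB L le S z S2 b
  | none, none => labC L le x z S1 S2

variable {L le S}

theorem not_sub_Q (h : Inv L le S) {a b : X} (hab : le a b) (j : ι) : ¬ S a b ⊆ L.Q j := by
  intro hs
  obtain ⟨w, hw⟩ := h.nonempty a b
  exact L.nQ j w (h.nn a b hab hw) (hs hw)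

theorem not_sub_c (h : Inv L le S) {a b : X} (hab : le a b) : ¬ S a b ⊆ L.c := by
  intro hs
  obtain ⟨w, hw⟩ := h.nonempty a b
  exact L.nc w (h.nn a b hab hw) (hs hw)

theorem labA_of_le (h : Inv L le S) {x a : X} (hax : le a x) (S1 : Set W) :
    labA L le S x S1 a = S1 := by
  ext w
  constructor
  · intro hw
    exact hw.1 hax
  · intro hw
    exact ⟨fun _ => hw, fun j _ h2 => absurd h2 (not_sub_Q h hax j)⟩

theorem labB_of_le (h : Inv L le S) {z b : X} (hzb : le z b) (S2 : Set W) :
    labB L le S z S2 b = S2 := by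
  ext w
  constructor
  · intro hw
    exact hw.1 hzb
  · intro hw
    exact ⟨fun _ => hw, fun j _ h2 => absurd h2 (not_sub_c h hzb)⟩

theorem pt_labA {x a : X} (hax : ¬ le a x) (S1 : Set W) : L.pt ∈ labA L le S x S1 a :=
  ⟨fun h => absurd h hax, fun j _ _ => L.pt_P j⟩

theorem pt_labB {z b : X} (hzb : ¬ le z b) (S2 : Set W) : L.pt ∈ labB L le S z S2 b :=
  ⟨fun h => absurd h hzb, fun j _ _ => L.pt_P j⟩

theorem pt_labC (x z : X) (S1 S2 : Set W) : L.pt ∈ labC L le x z S1 S2 :=
  ⟨L.pt_n, fun j _ _ _ => L.pt_P j⟩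

theorem labA_Q (h : Inv L le S) {x a : X} {S1 : Set W} {j : ι}
    (hs : labA L le S x S1 a ⊆ L.Q j) : le a x ∧ S1 ⊆ L.Q j := by
  by_cases hax : le a x
  · exact ⟨hax, by rwa [labA_of_le h hax] at hs⟩
  · exact absurd (hs (pt_labA hax S1)) (L.nQ j _ L.pt_n)

theorem labA_c (h : Inv L le S) {x a : X} {S1 : Set W}
    (hs : labA L le S x S1 a ⊆ L.c) : le a x ∧ S1 ⊆ L.c := by
  by_cases hax : le a x
  · exact ⟨hax, by rwa [labA_of_le h hax] at hs⟩
  · exact absurd (hs (pt_labA hax S1)) (L.nc _ L.pt_n)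

theorem labB_Q (h : Inv L le S) {z b : X} {S2 : Set W} {j : ι}
    (hs : labB L le S z S2 b ⊆ L.Q j) : le z b ∧ S2 ⊆ L.Q j := by
  by_cases hzb : le z b
  · exact ⟨hzb, by rwa [labB_of_le h hzb] at hs⟩
  · exact absurd (hs (pt_labB hzb S2)) (L.nQ j _ L.pt_n)

theorem labB_c (h : Inv L le S) {z b : X} {S2 : Set W}
    (hs : labB L le S z S2 b ⊆ L.c) : le z b ∧ S2 ⊆ L.c := by
  by_cases hzb : le z b
  · exact ⟨hzb, by rwa [labB_of_le h hzb] at hs⟩
  · exact absurd (hs (pt_labB hzb S2)) (L.nc _ L.pt_n)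

theorem labA_mono (h : Inv L le S) {x a a' : X} (haa : le a' a) (S1 : Set W) :
    labA L le S x S1 a' ⊆ labA L le S x S1 a := by
  rintro w ⟨h1, h2⟩
  exact ⟨fun hax => h1 (h.trans _ _ _ haa hax),
    fun j hc hQ => h2 j hc ((h.m1 _ _ _ haa).trans hQ)⟩

theorem labB_mono (h : Inv L le S) {z b b' : X} (hbb : le b b') (S2 : Set W) :
    labB L le S z S2 b' ⊆ labB L le S z S2 b := by
  rintro w ⟨h1, h2⟩
  exact ⟨fun hzb => h1 (h.trans _ _ _ hzb hbb),
    fun j hQ hc => h2 j hQ ((h.m2 _ _ _ hbb).trans hc)⟩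

theorem labA_upper {x a : X} {S1 : Set W} (hS1 : IsUpperSet S1) :
    IsUpperSet (labA L le S x S1 a) := by
  intro w w' hww hw
  exact ⟨fun hax => hS1 hww (hw.1 hax), fun j h1 h2 => L.P_upper j hww (hw.2 j h1 h2)⟩

theorem labB_upper {z b : X} {S2 : Set W} (hS2 : IsUpperSet S2) :
    IsUpperSet (labB L le S z S2 b) := by
  intro w w' hww hw
  exact ⟨fun hax => hS2 hww (hw.1 hax), fun j h1 h2 => L.P_upper j hww (hw.2 j h1 h2)⟩

theorem labC_upper {x z : X} {S1 S2 : Set W} : IsUpperSet (labC L le x z S1 S2) := by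
  intro w w' hww hw
  exact ⟨L.n_upper hww hw.1, fun j h1 h2 h3 => L.P_upper j hww (hw.2 j h1 h2 h3)⟩

theorem inv_stepW (h : Inv L le S) (x z : X) {S1 S2 : Set W} (u1 : IsUpperSet S1)
    (u2 : IsUpperSet S2) (n1 : S1.Nonempty) (n2 : S2.Nonempty)
    (hc : ∀ j, S1 ⊆ L.Q j → S2 ⊆ L.c → S x z ⊆ L.P j) :
    Inv L (leW le) (SW L le S x z S1 S2) where
  refl := by
    rintro (_ | a)
    · trivial
    · exact h.refl a
  trans := by
    rintro (_ | a) (_ | b) (_ | d) h1 h2
    all_goals first
      | trivial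
      | exact absurd h1 id
      | exact absurd h2 id
      | exact h.trans _ _ _ h1 h2
  antisymm := by
    rintro (_ | a) (_ | b) h1 h2
    · rfl
    · exact absurd h1 id
    · exact absurd h1 id
    · rw [h.antisymm a b h1 h2]
  upper := by
    rintro (_ | a) (_ | b)
    · exact labC_upper
    · exact labB_upper u2
    · exact labA_upper u1
    · exact h.upper a b
  nonempty := by
    rintro (_ | a) (_ | b)
    · exact ⟨_, pt_labC x z S1 S2⟩
    · by_cases hzb : le z b
      · change (labB L le S z S2 b).Nonempty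
        rw [labB_of_le h hzb]; exact n2
      · exact ⟨_, pt_labB hzb S2⟩
    · by_cases hax : le a x
      · change (labA L le S x S1 a).Nonempty
        rw [labA_of_le h hax]; exact n1
      · exact ⟨_, pt_labA hax S1⟩
    · exact h.nonempty a b
  m1 := by
    rintro (_ | a') (_ | a) (_ | b) hle
    all_goals first
      | exact absurd hle id
      | exact subset_rfl
      | exact labA_mono h hle S1
      | exact h.m1 _ _ _ hle
  m2 := by
    rintro (_ | a) (_ | b) (_ | b') hle
    all_goals first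
      | exact absurd hle id
      | exact subset_rfl
      | exact labB_mono h hle S2
      | exact h.m2 _ _ _ hle
  nn := by
    rintro (_ | a) (_ | b) hle
    · exact fun w hw => hw.1
    · exact absurd hle id
    · exact absurd hle id
    · exact h.nn a b hle
  pp := by
    rintro (_ | a) (_ | b) (_ | d) j h1 h2
    · exact absurd (h1 (pt_labC x z S1 S2)) (L.nQ j _ L.pt_n)
    · exact absurd (h1 (pt_labC x z S1 S2)) (L.nQ j _ L.pt_n)
    · obtain ⟨hzb, h1'⟩ := labB_Q h h1
      obtain ⟨hbx, h2'⟩ := labA_c h h2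
      exact fun w hw => hw.2 j h1' h2' (h.trans _ _ _ hzb hbx)
    · obtain ⟨hzb, h1'⟩ := labB_Q h h1
      exact fun w hw => hw.2 j h1' ((h.m1 _ _ _ hzb).trans h2)
    · exact absurd (h2 (pt_labC x z S1 S2)) (L.nc _ L.pt_n)
    · obtain ⟨hax, h1'⟩ := labA_Q h h1
      obtain ⟨hzd, h2'⟩ := labB_c h h2
      exact (h.m1 _ _ _ hax).trans ((h.m2 _ _ _ hzd).trans (hc j h1' h2'))
    · obtain ⟨hbx, h2'⟩ := labA_c h h2
      exact fun w hw => hw.2 j h2' ((h.m2 _ _ _ hbx).trans h1)
    · exact h.pp _ _ _ j h1 h2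

end StepW

section StepR

variable (L : Lab W ι) {X : Type} (le : X → X → Prop) (S : X → X → Set W)

/-- The points after a step of the second kind. -/
inductive Two (X : Type) : Type
  | old (a : X)
  | lo
  | hi

open Two

/-- The order after a step of the second kind. -/
def leR (x y : X) : Two X → Two X → Prop
  | old a, old b => le a b
  | lo, old b => le x b
  | lo, lo => True
  | lo, hi => le x y
  | old a, hi => le a y
  | hi, hi => True
  | old _, lo => False
  | hi, lo => False
  | hi, old _ => False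

/-- The labels after a step of the second kind. -/
def SR (x y : X) (w : W) : Two X → Two X → Set W
  | old a, old b => S a b
  | lo, old b => S x b
  | lo, lo => L.n
  | lo, hi => {v | w ≤ v}
  | old a, hi => S a y
  | hi, hi => L.n
  | old _, lo => Set.univ
  | hi, lo => Set.univ
  | hi, old _ => Set.univ

variable {L le S}

theorem univ_not_Q (j : ι) : ¬ (Set.univ : Set W) ⊆ L.Q j :=
  fun h => L.nQ j _ L.pt_n (h (Set.mem_univ _))

theorem univ_not_c : ¬ (Set.univ : Set W) ⊆ L.c :=
  fun h => L.nc _ L.pt_n (h (Set.mem_univ _))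

theorem n_not_Q (j : ι) : ¬ L.n ⊆ L.Q j :=
  fun h => L.nQ j _ L.pt_n (h L.pt_n)

theorem n_not_c : ¬ L.n ⊆ L.c :=
  fun h => L.nc _ L.pt_n (h L.pt_n)

theorem inv_stepR (h : Inv L le S) (x y : X) {w : W} (hw : w ∈ S x y) :
    Inv L (leR le x y) (SR L S x y w) := by
  have hup : ∀ T : Set W, IsUpperSet T → w ∈ T → {v | w ≤ v} ⊆ T :=
    fun T hT hwT v hv => hT hv hwT
  refine ⟨?_, ?_, ?_, ?_, ?_, ?_, ?_, ?_, ?_⟩
  · rintro (a | _ | _)
    · exact h.refl a
    · trivial
    · trivial
  · rintro (a | _ | _) (b | _ | _) (d | _ | _) h1 h2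
    all_goals first
      | trivial
      | exact absurd h1 id
      | exact absurd h2 id
      | exact h.trans _ _ _ h1 h2
      | exact h1
      | exact h2
  · rintro (a | _ | _) (b | _ | _) h1 h2
    all_goals first
      | rfl
      | exact absurd h1 id
      | exact absurd h2 id
      | rw [h.antisymm a b h1 h2]
  · rintro (a | _ | _) (b | _ | _)
    all_goals first
      | exact isUpperSet_univ
      | exact L.n_upper
      | exact h.upper _ _
      | exact fun v v' hvv hv => le_trans hv hvv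
  · rintro (a | _ | _) (b | _ | _)
    all_goals first
      | exact ⟨w, Set.mem_univ _⟩
      | exact ⟨_, L.pt_n⟩
      | exact h.nonempty _ _
      | exact ⟨w, le_refl w⟩
  · rintro (a' | _ | _) (a | _ | _) (b | _ | _) hle
    all_goals first
      | exact absurd hle id
      | exact subset_rfl
      | exact Set.subset_univ _
      | exact h.m1 _ _ _ hle
      | exact h.nn _ _ hle
      | exact hup _ (h.upper _ _) (h.m1 _ _ _ hle hw)
      | exact hup _ L.n_upper (h.nn _ _ hle hw)
  · rintro (a | _ | _) (b | _ | _) (b' | _ | _) hle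
    all_goals first
      | exact absurd hle id
      | exact subset_rfl
      | exact Set.subset_univ _
      | exact h.m2 _ _ _ hle
      | exact h.nn _ _ hle
      | exact hup _ (h.upper _ _) (h.m2 _ _ _ hle hw)
      | exact hup _ L.n_upper (h.nn _ _ hle hw)
  · rintro (a | _ | _) (b | _ | _) hle
    all_goals first
      | exact absurd hle id
      | exact subset_rfl
      | exact h.nn _ _ hle
      | exact hup _ L.n_upper (h.nn _ _ hle hw)
  · rintro (a | _ | _) (b | _ | _) (d | _ | _) j h1 h2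
    all_goals first
      | exact absurd h1 (univ_not_Q j)
      | exact absurd h1 (n_not_Q j)
      | exact absurd h2 univ_not_c
      | exact absurd h2 n_not_c
      | exact h.pp _ _ _ j h1 h2
      | exact hup _ (L.P_upper j) (h.pp _ _ _ j h1 h2 hw)

end StepR

end Pool.Agent.R619.Wis
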