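import Mathlib
import Pool.Agent.R619.Wis.Step

/-!
The limit of the step-by-step construction.
-/

namespace Pool.Agent.R619.Wis

variable {W : Type} [PartialOrder W] {ι : Type}

/-- Finite partial structures. -/
structure PS (L : Lab W ι) where
  N : ℕ
  pos : 0 < N
  le : ℕ → ℕ → Prop
  S : ℕ → ℕ → Set W
  ok : Inv L (fun i j : Fin N => le i j) (fun i j : Fin N => S i j)

instance (L : Lab W ι) : Preorder (PS L) where
  le p q := p.N ≤ q.N ∧
    ∀ i j, i < p.N → j < p.N → (q.le i j ↔ p.le i j) ∧ q.S i j = p.S i j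
  le_refl p := ⟨le_refl _, fun i j _ _ => ⟨Iff.rfl, rfl⟩⟩
  le_trans p q r h1 h2 := ⟨h1.1.trans h2.1, fun i j hi hj =>
    ⟨(h2.2 i j (hi.trans_le h1.1) (hj.trans_le h1.1)).1.trans (h1.2 i j hi hj).1,
      (h2.2 i j (hi.trans_le h1.1) (hj.trans_le h1.1)).2.trans (h1.2 i j hi hj).2⟩⟩

theorem PS.le_def {L : Lab W ι} {p q : PS L} : p ≤ q ↔ p.N ≤ q.N ∧
    ∀ i j, i < p.N → j < p.N → (q.le i j ↔ p.le i j) ∧ q.S i j = p.S i j := Iff.rfl

theorem PS.extend {L : Lab W ι} (p : PS L) {Y : Type} {le' : Y → Y → Prop}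
    {S' : Y → Y → Set W} (hY : Inv L le' S') (k : ℕ) (g : ℕ → Y)
    (hg : ∀ i j, i < p.N + k → j < p.N + k → g i = g j → i = j)
    (h1 : ∀ i j, i < p.N → j < p.N →
      (le' (g i) (g j) ↔ p.le i j) ∧ S' (g i) (g j) = p.S i j) :
    ∃ q : PS L, p ≤ q ∧ q.N = p.N + k ∧ (∀ i j, q.le i j ↔ le' (g i) (g j)) ∧
      ∀ i j, q.S i j = S' (g i) (g j) := by
  refine ⟨⟨p.N + k, by have := p.pos; omega, fun i j => le' (g i) (g j),
    fun i j => S' (g i) (g j), ?_⟩, ?_, rfl, fun _ _ => Iff.rfl, fun _ _ => rfl⟩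
  · exact hY.comap (fun i : Fin (p.N + k) => g i)
      (fun i j hij => Fin.ext (hg i j i.2 j.2 hij))
  · exact ⟨Nat.le_add_right _ _, h1⟩

/-- Naming of the points after a step of the first kind. -/
def gW (N : ℕ) (i : ℕ) : Option (Fin N) := if h : i < N then some ⟨i, h⟩ else none

theorem gW_lt {N i : ℕ} (h : i < N) : gW N i = some ⟨i, h⟩ := by simp [gW, h]

theorem gW_self (N : ℕ) : gW N N = none := by simp [gW]

theorem gW_inj {N i j : ℕ} (hi : i < N + 1) (hj : j < N + 1) (h : gW N i = gW N j) :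
    i = j := by
  unfold gW at h
  split_ifs at h with h1 h2 h2
  · simpa using h
  · omega

/-- Naming of the points after a step of the second kind. -/
def gR (N : ℕ) (i : ℕ) : Two (Fin N) :=
  if h : i < N then Two.old ⟨i, h⟩ else if i = N then Two.lo else Two.hi

theorem gR_lt {N i : ℕ} (h : i < N) : gR N i = Two.old ⟨i, h⟩ := by simp [gR, h]

theorem gR_self (N : ℕ) : gR N N = Two.lo := by simp [gR]

theorem gR_succ (N : ℕ) : gR N (N + 1) = Two.hi := by simp [gR]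

theorem gR_inj {N i j : ℕ} (hi : i < N + 2) (hj : j < N + 2) (h : gR N i = gR N j) :
    i = j := by
  unfold gR at h
  split_ifs at h with h1 h2 h2 h3 h3 h4 h5 h6 h7 <;> first
    | omega
    | simpa using h

theorem PS.stepW {L : Lab W ι} (p : PS L) {x z : ℕ} (hx : x < p.N) (hz : z < p.N)
    {S1 S2 : Set W} (u1 : IsUpperSet S1) (u2 : IsUpperSet S2) (n1 : S1.Nonempty)
    (n2 : S2.Nonempty) (hc : ∀ j, S1 ⊆ L.Q j → S2 ⊆ L.c → p.S x z ⊆ L.P j) :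
    ∃ q : PS L, p ≤ q ∧ q.N = p.N + 1 ∧ q.S x p.N ⊆ S1 ∧ q.S p.N z ⊆ S2 ∧
      (S1 = Set.univ → q.S x p.N = Set.univ) := by
  have hY := inv_stepW p.ok ⟨x, hx⟩ ⟨z, hz⟩ u1 u2 n1 n2 hc
  obtain ⟨q, hq, hN, -, hS⟩ := p.extend hY 1 (gW p.N) (fun i j hi hj h => gW_inj hi hj h)
    (by
      intro i j hi hj
      rw [gW_lt hi, gW_lt hj]
      exact ⟨Iff.rfl, rfl⟩)
  have hxx : p.le x x := p.ok.refl ⟨x, hx⟩
  have hzz : p.le z z := p.ok.refl ⟨z, hz⟩
  refine ⟨q, hq, hN, ?_, ?_, ?_⟩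
  · rw [hS, gW_lt hx, gW_self]
    exact fun w hw => hw.1 hxx
  · rw [hS, gW_lt hz, gW_self]
    exact fun w hw => hw.1 hzz
  · intro h1
    rw [hS, gW_lt hx, gW_self, h1]
    apply Set.eq_univ_of_forall
    intro w
    exact ⟨fun _ => Set.mem_univ _, fun j hj _ => absurd hj univ_not_c⟩

theorem PS.stepR {L : Lab W ι} (p : PS L) {x y : ℕ} (hx : x < p.N) (hy : y < p.N)
    {w : W} (hw : w ∈ p.S x y) :
    ∃ q : PS L, p ≤ q ∧ q.N = p.N + 2 ∧ q.le p.N x ∧ q.le y (p.N + 1) ∧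
      q.S p.N (p.N + 1) = {v | w ≤ v} := by
  have hY := inv_stepR p.ok ⟨x, hx⟩ ⟨y, hy⟩ hw
  obtain ⟨q, hq, hN, hle, hS⟩ := p.extend hY 2 (gR p.N) (fun i j hi hj h => gR_inj hi hj h)
    (by
      intro i j hi hj
      rw [gR_lt hi, gR_lt hj]
      exact ⟨Iff.rfl, rfl⟩)
  have hxx : p.le x x := p.ok.refl ⟨x, hx⟩
  have hyy : p.le y y := p.ok.refl ⟨y, hy⟩
  refine ⟨q, hq, hN, ?_, ?_, ?_⟩
  · rw [hle, gR_lt hx, gR_self]
    exact hxx
  · rw [hle, gR_lt hy, gR_succ]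
    exact hyy
  · rw [hS, gR_self, gR_succ]
    rfl

theorem PS.grow {L : Lab W ι} (p : PS L) (k : ℕ) : ∃ q : PS L, p ≤ q ∧ k < q.N := by
  induction k with
  | zero => exact ⟨p, le_refl _, p.pos⟩
  | succ k ih =>
    obtain ⟨q, hq, hk⟩ := ih
    obtain ⟨r, hr, hN, -⟩ := q.stepW q.pos q.pos isUpperSet_univ isUpperSet_univ
      ⟨L.pt, Set.mem_univ _⟩ ⟨L.pt, Set.mem_univ _⟩
      (fun j hj _ => absurd hj (univ_not_Q j))
    exact ⟨r, hq.trans hr, by omega⟩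

/-- The initial structure. -/
def PS.init (L : Lab W ι) : PS L where
  N := 1
  pos := Nat.one_pos
  le _ _ := True
  S _ _ := L.n
  ok :=
    { refl := fun _ => trivial
      trans := fun _ _ _ _ _ => trivial
      antisymm := fun x y _ _ => Subsingleton.elim x y
      upper := fun _ _ => L.n_upper
      nonempty := fun _ _ => ⟨_, L.pt_n⟩
      m1 := fun _ _ _ _ => subset_rfl
      m2 := fun _ _ _ _ => subset_rfl
      nn := fun _ _ _ => subset_rfl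
      pp := fun _ _ _ j h _ => absurd h (n_not_Q j) }

/-- First kind of demands. -/
def demW (L : Lab W ι) (d : ℕ × ℕ × Set W × Set W) : Order.Cofinal (PS L) where
  carrier := {p | d.1 < p.N ∧ d.2.1 < p.N ∧ (IsUpperSet d.2.2.1 → IsUpperSet d.2.2.2 →
    d.2.2.1.Nonempty → d.2.2.2.Nonempty →
    (∀ j, d.2.2.1 ⊆ L.Q j → d.2.2.2 ⊆ L.c → p.S d.1 d.2.1 ⊆ L.P j) →
    ∃ y < p.N, p.S d.1 y ⊆ d.2.2.1 ∧ p.S y d.2.1 ⊆ d.2.2.2)}
  isCofinal := by
    obtain ⟨x, z, S1, S2⟩ := d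
    intro p
    obtain ⟨q, hq, hqN⟩ := p.grow (max x z)
    have hx : x < q.N := by omega
    have hz : z < q.N := by omega
    by_cases hcond : IsUpperSet S1 ∧ IsUpperSet S2 ∧ S1.Nonempty ∧ S2.Nonempty ∧
      (∀ j, S1 ⊆ L.Q j → S2 ⊆ L.c → q.S x z ⊆ L.P j)
    · obtain ⟨u1, u2, n1, n2, hc⟩ := hcond
      obtain ⟨r, hr, hN, h1, h2, -⟩ := q.stepW hx hz u1 u2 n1 n2 hc
      refine ⟨r, ⟨?_, ?_, ?_⟩, hq.trans hr⟩
      · simp only; omega
      · simp only; omega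
      · intro _ _ _ _ _
        exact ⟨q.N, by omega, h1, h2⟩
    · refine ⟨q, ⟨hx, hz, ?_⟩, hq⟩
      intro u1 u2 n1 n2 hc
      exact absurd ⟨u1, u2, n1, n2, hc⟩ hcond

/-- Second kind of demands. -/
def demR (L : Lab W ι) (d : ℕ × ℕ × W) : Order.Cofinal (PS L) where
  carrier := {p | d.1 < p.N ∧ d.2.1 < p.N ∧ (d.2.2 ∈ p.S d.1 d.2.1 →
    ∃ x' < p.N, ∃ y' < p.N, p.le x' d.1 ∧ p.le d.2.1 y' ∧ p.S x' y' = {v | d.2.2 ≤ v})}
  isCofinal := by
    obtain ⟨x, y, w⟩ := d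
    intro p
    obtain ⟨q, hq, hqN⟩ := p.grow (max x y)
    have hx : x < q.N := by omega
    have hy : y < q.N := by omega
    by_cases hcond : w ∈ q.S x y
    · obtain ⟨r, hr, hN, h1, h2, h3⟩ := q.stepR hx hy hcond
      refine ⟨r, ⟨?_, ?_, ?_⟩, hq.trans hr⟩
      · simp only; omega
      · simp only; omega
      · intro _
        exact ⟨q.N, by omega, q.N + 1, by omega, h1, h2, h3⟩
    · refine ⟨q, ⟨hx, hy, ?_⟩, hq⟩
      intro hw
      exact absurd hw hcond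

/-- Third kind of demand. -/
def demU (L : Lab W ι) : Order.Cofinal (PS L) where
  carrier := {p | ∃ x < p.N, ∃ y < p.N, p.S x y = Set.univ}
  isCofinal := by
    intro q
    obtain ⟨r, hr, hN, -, -, h3⟩ := q.stepW q.pos q.pos isUpperSet_univ isUpperSet_univ
      ⟨L.pt, Set.mem_univ _⟩ ⟨L.pt, Set.mem_univ _⟩
      (fun j hj _ => absurd hj (univ_not_Q j))
    have := q.pos
    exact ⟨r, ⟨0, by omega, q.N, by omega, h3 rfl⟩, hr⟩

/-- Existence of a saturated structure. -/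
theorem exists_limit [Finite W] (L : Lab W ι) :
    ∃ (le : ℕ → ℕ → Prop) (S : ℕ → ℕ → Set W), Inv L le S ∧
      (∀ x z S1 S2, IsUpperSet S1 → IsUpperSet S2 → S1.Nonempty → S2.Nonempty →
        (∀ j, S1 ⊆ L.Q j → S2 ⊆ L.c → S x z ⊆ L.P j) → ∃ y, S x y ⊆ S1 ∧ S y z ⊆ S2) ∧
      (∀ x y w, w ∈ S x y → ∃ x' y', le x' x ∧ le y y' ∧ S x' y' = {v | w ≤ v}) ∧
      ∃ x y, S x y = Set.univ := by
  classical
  haveI : Encodable ((ℕ × ℕ × Set W × Set W) ⊕ (ℕ × ℕ × W) ⊕ Unit) := Encodable.ofCountable _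
  let 𝒟 : (ℕ × ℕ × Set W × Set W) ⊕ (ℕ × ℕ × W) ⊕ Unit → Order.Cofinal (PS L) :=
    Sum.elim (demW L) (Sum.elim (demR L) (fun _ => demU L))
  let p := Order.sequenceOfCofinals (PS.init L) 𝒟
  have hmono : Monotone p := Order.sequenceOfCofinals.monotone _ _
  have hmeet : ∀ i, ∃ n, p n ∈ 𝒟 i := fun i =>
    ⟨_, Order.sequenceOfCofinals.encode_mem (PS.init L) 𝒟 i⟩
  have hbig : ∀ x, ∃ n, x < (p n).N := by
    intro x
    obtain ⟨n, hn⟩ := hmeet (Sum.inl (x, x, ∅, ∅))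
    exact ⟨n, hn.1⟩
  let le : ℕ → ℕ → Prop := fun x y => ∃ n, x < (p n).N ∧ y < (p n).N ∧ (p n).le x y
  let S : ℕ → ℕ → Set W := fun x y => {w | ∃ n, x < (p n).N ∧ y < (p n).N ∧ w ∈ (p n).S x y}
  have hcomp : ∀ n m x y, x < (p n).N → y < (p n).N → x < (p m).N → y < (p m).N →
      ((p n).le x y ↔ (p m).le x y) ∧ (p n).S x y = (p m).S x y := by
    intro n m x y hx hy hx' hy'
    rcases le_total n m with h | h
    · have := (hmono h).2 x y hx hy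
      exact ⟨this.1.symm, this.2.symm⟩
    · exact (hmono h).2 x y hx' hy'
  have hle : ∀ n x y, x < (p n).N → y < (p n).N → (le x y ↔ (p n).le x y) := by
    intro n x y hx hy
    constructor
    · rintro ⟨m, hx', hy', h⟩
      exact (hcomp n m x y hx hy hx' hy').1.2 h
    · intro h
      exact ⟨n, hx, hy, h⟩
  have hS : ∀ n x y, x < (p n).N → y < (p n).N → S x y = (p n).S x y := by
    intro n x y hx hy
    ext w
    constructor
    · rintro ⟨m, hx', hy', h⟩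
      rw [(hcomp n m x y hx hy hx' hy').2]
      exact h
    · intro h
      exact ⟨n, hx, hy, h⟩
  have hN : ∀ x y z, ∃ n, x < (p n).N ∧ y < (p n).N ∧ z < (p n).N := by
    intro x y z
    obtain ⟨a, ha⟩ := hbig x
    obtain ⟨b, hb⟩ := hbig y
    obtain ⟨c, hc⟩ := hbig z
    refine ⟨max a (max b c), ha.trans_le ?_, hb.trans_le ?_, hc.trans_le ?_⟩
    · exact (hmono (le_max_left _ _)).1
    · exact (hmono ((le_max_left _ _).trans (le_max_right _ _))).1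
    · exact (hmono ((le_max_right _ _).trans (le_max_right _ _))).1
  refine ⟨le, S, ?_, ?_, ?_, ?_⟩
  · refine ⟨?_, ?_, ?_, ?_, ?_, ?_, ?_, ?_, ?_⟩
    · intro x
      obtain ⟨n, hx, -, -⟩ := hN x x x
      rw [hle n x x hx hx]
      exact (p n).ok.refl ⟨x, hx⟩
    · intro x y z
      obtain ⟨n, hx, hy, hz⟩ := hN x y z
      rw [hle n x y hx hy, hle n y z hy hz, hle n x z hx hz]
      exact (p n).ok.trans ⟨x, hx⟩ ⟨y, hy⟩ ⟨z, hz⟩
    · intro x y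
      obtain ⟨n, hx, hy, -⟩ := hN x y y
      rw [hle n x y hx hy, hle n y x hy hx]
      intro h1 h2
      have := (p n).ok.antisymm ⟨x, hx⟩ ⟨y, hy⟩ h1 h2
      simpa using this
    · intro x y
      obtain ⟨n, hx, hy, -⟩ := hN x y y
      rw [hS n x y hx hy]
      exact (p n).ok.upper ⟨x, hx⟩ ⟨y, hy⟩
    · intro x y
      obtain ⟨n, hx, hy, -⟩ := hN x y y
      rw [hS n x y hx hy]
      exact (p n).ok.nonempty ⟨x, hx⟩ ⟨y, hy⟩
    · intro x' x y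
      obtain ⟨n, hx', hx, hy⟩ := hN x' x y
      rw [hle n x' x hx' hx, hS n x y hx hy, hS n x' y hx' hy]
      exact (p n).ok.m1 ⟨x', hx'⟩ ⟨x, hx⟩ ⟨y, hy⟩
    · intro x y y'
      obtain ⟨n, hx, hy, hy'⟩ := hN x y y'
      rw [hle n y y' hy hy', hS n x y hx hy, hS n x y' hx hy']
      exact (p n).ok.m2 ⟨x, hx⟩ ⟨y, hy⟩ ⟨y', hy'⟩
    · intro x y
      obtain ⟨n, hx, hy, -⟩ := hN x y y
      rw [hle n x y hx hy, hS n x y hx hy]
      exact (p n).ok.nn ⟨x, hx⟩ ⟨y, hy⟩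
    · intro x y z
      obtain ⟨n, hx, hy, hz⟩ := hN x y z
      rw [hS n x y hx hy, hS n y z hy hz, hS n x z hx hz]
      exact (p n).ok.pp ⟨x, hx⟩ ⟨y, hy⟩ ⟨z, hz⟩
  · intro x z S1 S2 u1 u2 n1 n2 hc
    obtain ⟨n, hx, hz, h⟩ := hmeet (Sum.inl (x, z, S1, S2))
    simp only at hx hz h
    rw [hS n x z hx hz] at hc
    obtain ⟨y, hy, h1, h2⟩ := h u1 u2 n1 n2 hc
    refine ⟨y, ?_, ?_⟩
    · rw [hS n x y hx hy]; exact h1
    · rw [hS n y z hy hz]; exact h2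
  · intro x y w hw
    obtain ⟨n, hx, hy, h⟩ := hmeet (Sum.inr (Sum.inl (x, y, w)))
    simp only at hx hy h
    rw [hS n x y hx hy] at hw
    obtain ⟨x', hx', y', hy', h1, h2, h3⟩ := h hw
    refine ⟨x', y', ?_, ?_, ?_⟩
    · rw [hle n x' x hx' hx]; exact h1
    · rw [hle n y y' hy hy']; exact h2
    · rw [hS n x' y' hx' hy']; exact h3
  · obtain ⟨n, x, hx, y, hy, h⟩ := hmeet (Sum.inr (Sum.inr ()))
    exact ⟨x, y, by rw [hS n x y hx hy]; exact h⟩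

end Pool.Agent.R619.Wis
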