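import Mathlib
import Pool.Agent.R619.Wis.Limit

/-!
The algebras used to refute finite axiomatisability: representable ones and non-representable ones.
-/

namespace Pool.Agent.R619.Wis

section General

variable {W : Type} [PartialOrder W] {ι : Type}

/-- An algebra of upper sets whose product obeys the rules of `L` is representable. -/
theorem rep_of_lab [Finite W] {A : Type} (mul imp : A → A → A) (L : Lab W ι) (U : A → Set W)
    (hinj : Function.Injective U) (hup : ∀ a, IsUpperSet (U a))
    (himp : ∀ a b, U (imp a b) = {w | ∀ w', w ≤ w' → w' ∈ U a → w' ∈ U b})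
    (hm1 : ∀ a b, (U (mul a b)).Nonempty → (U a).Nonempty ∧ (U b).Nonempty)
    (hm2 : ∀ a b j, (U a).Nonempty → (U b).Nonempty → U a ⊆ L.Q j → U b ⊆ L.c →
      U (mul a b) ⊆ L.P j)
    (hm3 : ∀ a b, (U a).Nonempty → (U b).Nonempty → U (mul a b) = Set.univ ∨
      ∃ j, U a ⊆ L.Q j ∧ U b ⊆ L.c ∧ L.P j ⊆ U (mul a b)) : RWIS mul imp := by
  obtain ⟨le, S, hI, hW, hR, x0, y0, hU⟩ := exists_limit L
  let iX : PartialOrder ℕ :=
    { le := le
      lt := fun a b => le a b ∧ ¬ le b a
      lt_iff_le_not_ge := fun _ _ => Iff.rfl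
      le_refl := hI.refl
      le_trans := hI.trans
      le_antisymm := hI.antisymm }
  refine ⟨ℕ, iX, fun a => {p | S p.1 p.2 ⊆ U a}, ?_, ?_, ?_, ?_⟩
  · -- injectivity
    have key : ∀ a b, ({p : ℕ × ℕ | S p.1 p.2 ⊆ U a} = {p : ℕ × ℕ | S p.1 p.2 ⊆ U b}) →
        U a ⊆ U b := by
      intro a b hab w hw
      obtain ⟨x', y', -, -, h⟩ := hR x0 y0 w (by rw [hU]; exact Set.mem_univ _)
      have h1 : (x', y') ∈ {p : ℕ × ℕ | S p.1 p.2 ⊆ U a} := by
        change S x' y' ⊆ U a
        rw [h]
        exact fun v hv => hup a hv hw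
      rw [hab] at h1
      have h2 : S x' y' ⊆ U b := h1
      apply h2
      rw [h]
      exact le_refl w
    intro a b hab
    exact hinj (Set.Subset.antisymm (key a b hab) (key b a hab.symm))
  · intro a
    rw [isWeakening_iff]
    intro x x' y y' hx hy h
    exact (hI.m1 _ _ _ hx).trans ((hI.m2 _ _ _ hy).trans h)
  · intro a b
    ext ⟨x, z⟩
    constructor
    · intro h
      have h' : S x z ⊆ U (mul a b) := h
      obtain ⟨w, hw⟩ := hI.nonempty x z
      obtain ⟨ha, hb⟩ := hm1 a b ⟨w, h' hw⟩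
      exact hW x z (U a) (U b) (hup a) (hup b) ha hb
        (fun j h1 h2 => h'.trans (hm2 a b j ha hb h1 h2))
    · rintro ⟨y, h1, h2⟩
      have h1' : S x y ⊆ U a := h1
      have h2' : S y z ⊆ U b := h2
      change S x z ⊆ U (mul a b)
      obtain ⟨w1, hw1⟩ := hI.nonempty x y
      obtain ⟨w2, hw2⟩ := hI.nonempty y z
      rcases hm3 a b ⟨w1, h1' hw1⟩ ⟨w2, h2' hw2⟩ with h | ⟨j, h3, h4, h5⟩
      · rw [h]; exact Set.subset_univ _
      · exact (hI.pp x y z j (h1'.trans h3) (h2'.trans h4)).trans h5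
  · intro a b
    ext ⟨x, y⟩
    constructor
    · intro h x' y' hxy
      obtain ⟨hx, hy, ha⟩ := hxy
      have h' : S x y ⊆ U (imp a b) := h
      have ha' : S x' y' ⊆ U a := ha
      change S x' y' ⊆ U b
      intro w hw
      have h3 : w ∈ U (imp a b) := h' ((hI.m2 _ _ _ hy) ((hI.m1 _ _ _ hx) hw))
      rw [himp] at h3
      exact h3 w le_rfl (ha' hw)
    · intro h
      change S x y ⊆ U (imp a b)
      rw [himp]
      intro w hw w' hww' hw'
      obtain ⟨x', y', hx, hy, h3⟩ := hR x y w' (hI.upper x y hww' hw)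
      have h4 : S x' y' ⊆ U b := h x' y' ⟨hx, hy, by
        change S x' y' ⊆ U a
        rw [h3]
        exact fun v hv => hup a hv hw'⟩
      apply h4
      rw [h3]
      exact le_refl w'

end General

/-- The points of the label poset. -/
inductive Pt (k : ℕ) : Type
  | w (j : Fin (k + 1))
  | top
  | p (j : Fin (k + 1))
  | star

/-- The order on the label poset. -/
inductive PtLe {k : ℕ} : Pt k → Pt k → Prop
  | refl (a : Pt k) : PtLe a a
  | wt (j : Fin (k + 1)) : PtLe (Pt.w j) Pt.top

instance (k : ℕ) : PartialOrder (Pt k) where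
  le := PtLe
  le_refl := PtLe.refl
  le_trans := by
    intro a b c h1 h2
    cases h1 with
    | refl => exact h2
    | wt j => cases h2 with
      | refl => exact PtLe.wt j
  le_antisymm := by
    intro a b h1 h2
    cases h1 with
    | refl => rfl
    | wt j => cases h2

instance (k : ℕ) : Finite (Pt k) := by
  let f : Pt k → (Fin (k + 1) ⊕ Fin (k + 1)) ⊕ (Unit ⊕ Unit) := fun a => match a with
    | Pt.w j => Sum.inl (Sum.inl j)
    | Pt.p j => Sum.inl (Sum.inr j)
    | Pt.top => Sum.inr (Sum.inl ())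
    | Pt.star => Sum.inr (Sum.inr ())
  refine Finite.of_injective f ?_
  intro a b h
  cases a <;> cases b <;> simp_all [f]

theorem w_le_iff {k : ℕ} {j : Fin (k + 1)} {a : Pt k} :
    Pt.w j ≤ a ↔ a = Pt.w j ∨ a = Pt.top := by
  constructor
  · intro h
    cases h with
    | refl => exact Or.inl rfl
    | wt => exact Or.inr rfl
  · rintro (rfl | rfl)
    · exact le_rfl
    · exact PtLe.wt j

theorem top_le_iff' {k : ℕ} {a : Pt k} : Pt.top ≤ a ↔ a = Pt.top := by
  constructor
  · intro h
    cases h with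
    | refl => rfl
  · rintro rfl
    exact le_rfl

theorem p_le_iff {k : ℕ} {j : Fin (k + 1)} {a : Pt k} : Pt.p j ≤ a ↔ a = Pt.p j := by
  constructor
  · intro h
    cases h with
    | refl => rfl
  · rintro rfl
    exact le_rfl

theorem star_le_iff {k : ℕ} {a : Pt k} : Pt.star ≤ a ↔ a = Pt.star := by
  constructor
  · intro h
    cases h with
    | refl => rfl
  · rintro rfl
    exact le_rfl

theorem upper_iff {k : ℕ} (T : Set (Pt k)) :
    IsUpperSet T ↔ ∀ j, Pt.w j ∈ T → Pt.top ∈ T := by
  constructor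
  · intro h j hj
    exact h (PtLe.wt j) hj
  · intro h a b hab ha
    cases hab with
    | refl => exact ha
    | wt j => exact h j ha

/-- The carrier of all the algebras. -/
def Car (k : ℕ) : Type := {T : Set (Pt k) // IsUpperSet T ∧ T ≠ {Pt.top}}

namespace Car

variable {k : ℕ}

/-- The set `Q j`. -/
def Qs (j : Fin (k + 1)) : Set (Pt k) := {Pt.w j, Pt.top}

/-- The set `P j`. -/
def Ps (j : Fin (k + 1)) : Set (Pt k) := {a | ∃ i, i ≠ j ∧ a = Pt.p i}

/-- The underlying set of an implication. -/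
def impS (T T' : Set (Pt k)) : Set (Pt k) := {a | ∀ a', a ≤ a' → a' ∈ T → a' ∈ T'}

/-- The underlying set of a product. -/
def mulS (J : Set (Fin (k + 1))) (T T' : Set (Pt k)) : Set (Pt k) :=
  {a | T.Nonempty ∧ T'.Nonempty ∧ ∀ j ∈ J, T = Qs j → T' = {Pt.star} → a ∈ Ps j}

theorem Qs_upper (j : Fin (k + 1)) : IsUpperSet (Qs j) := by
  rw [upper_iff]
  intro i _
  simp [Qs]

theorem Ps_upper (j : Fin (k + 1)) : IsUpperSet (Ps j) := by
  rw [upper_iff]
  rintro i ⟨i', -, h⟩
  cases h

theorem Qs_ne (j : Fin (k + 1)) : Qs j ≠ {Pt.top} := by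
  intro h
  have : Pt.w j ∈ ({Pt.top} : Set (Pt k)) := by rw [← h]; simp [Qs]
  simp at this

theorem top_not_Ps (j : Fin (k + 1)) : Pt.top ∉ Ps j := by
  rintro ⟨i, -, h⟩
  cases h

theorem Ps_ne (j : Fin (k + 1)) : Ps j ≠ {Pt.top} := by
  intro h
  apply top_not_Ps j
  rw [h]
  rfl

theorem Qs_inj {i j : Fin (k + 1)} (h : Qs i = Qs j) : i = j := by
  have : Pt.w i ∈ Qs j := by rw [← h]; simp [Qs]
  simpa [Qs] using this

/-- Products. -/
def mul (J : Set (Fin (k + 1))) (a b : Car k) : Car k :=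
  ⟨mulS J a.1 b.1, by
    constructor
    · rw [upper_iff]
      rintro i ⟨h1, h2, h3⟩
      refine ⟨h1, h2, fun j hj ha hb => ?_⟩
      obtain ⟨i', -, h⟩ := h3 j hj ha hb
      cases h
    · intro h
      have ht : Pt.top ∈ mulS J a.1 b.1 := by rw [h]; rfl
      have hs : Pt.star ∈ mulS J a.1 b.1 := by
        refine ⟨ht.1, ht.2.1, fun j hj ha hb => ?_⟩
        exact absurd (ht.2.2 j hj ha hb) (top_not_Ps j)
      rw [h] at hs
      simp at hs⟩

/-- Implications. -/
def imp (a b : Car k) : Car k :=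
  ⟨impS a.1 b.1, by
    constructor
    · intro u v huv hu v' hvv'
      exact hu v' (huv.trans hvv')
    · intro h
      have hn : ∀ u, u ≠ Pt.top → u ∉ impS a.1 b.1 := by
        intro u hu hu'
        rw [h] at hu'
        exact hu hu'
      have ht : Pt.top ∈ impS a.1 b.1 := by rw [h]; rfl
      have ht' : Pt.top ∈ a.1 → Pt.top ∈ b.1 := ht Pt.top le_rfl
      have hw : ∀ j, Pt.w j ∈ a.1 ∧ Pt.w j ∉ b.1 := by
        intro j
        by_contra hcon
        apply hn (Pt.w j) (by simp)
        intro u hu hua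
        rw [w_le_iff] at hu
        rcases hu with rfl | rfl
        · by_contra hub
          exact hcon ⟨hua, hub⟩
        · exact ht' hua
      have hs : Pt.star ∉ b.1 := by
        intro hsb
        apply hn Pt.star (by simp)
        intro u hu _
        rw [star_le_iff] at hu
        rw [hu]
        exact hsb
      have hp : ∀ j, Pt.p j ∉ b.1 := by
        intro j hsb
        apply hn (Pt.p j) (by simp)
        intro u hu _
        rw [p_le_iff] at hu
        rw [hu]
        exact hsb
      have htb : Pt.top ∈ b.1 := ht' ((upper_iff _).1 a.2.1 0 (hw 0).1)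
      apply b.2.2
      ext u
      cases u with
      | w j => simpa using (hw j).2
      | top => simpa using htb
      | p j => simpa using hp j
      | star => simpa using hs⟩

theorem imp_val (a b : Car k) : (imp a b).1 = impS a.1 b.1 := rfl

theorem mul_val (J : Set (Fin (k + 1))) (a b : Car k) : (mul J a b).1 = mulS J a.1 b.1 := rfl

/-- Zero. -/
def zero : Car k := ⟨∅, isUpperSet_empty, fun h => by
  have : Pt.top ∈ (∅ : Set (Pt k)) := by rw [h]; rfl
  exact this⟩

/-- One. -/
def one : Car k := ⟨Set.univ, isUpperSet_univ, fun h => by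
  have : Pt.star ∈ ({Pt.top} : Set (Pt k)) := by rw [← h]; exact Set.mem_univ _
  simp at this⟩

/-- The element `Q j`. -/
def q (j : Fin (k + 1)) : Car k := ⟨Qs j, Qs_upper j, Qs_ne j⟩

/-- The element `P j`. -/
def pp (j : Fin (k + 1)) : Car k := ⟨Ps j, Ps_upper j, Ps_ne j⟩

/-- The element `c`. -/
def cc : Car k := ⟨{Pt.star}, by
  rw [upper_iff]
  intro j hj
  simp at hj, by simp⟩

/-- The label data. -/
def lab (J : Set (Fin (k + 1))) (i0 : Fin (k + 1)) (h0 : i0 ∉ J) : Lab (Pt k) J where
  Q j := Qs j.1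
  P j := Ps j.1
  n := {a | ∃ i, a = Pt.p i}
  c := {Pt.star}
  pt := Pt.p i0
  n_upper := by
    rw [upper_iff]
    rintro j ⟨i, h⟩
    cases h
  P_upper j := Ps_upper j.1
  nQ := by
    rintro j w ⟨i, rfl⟩
    simp [Qs]
  nc := by
    rintro w ⟨i, rfl⟩
    simp
  pt_n := ⟨i0, rfl⟩
  pt_P j := ⟨i0, fun h => h0 (h ▸ j.2), rfl⟩

theorem eq_Qs {T : Set (Pt k)} (hT : IsUpperSet T) (hT' : T ≠ {Pt.top}) (hn : T.Nonempty)
    {j : Fin (k + 1)} (h : T ⊆ Qs j) : T = Qs j := by
  by_cases hw : Pt.w j ∈ T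
  · apply Set.Subset.antisymm h
    rintro a (rfl | rfl)
    · exact hw
    · exact (upper_iff T).1 hT j hw
  · exfalso
    apply hT'
    have hsub : T ⊆ {Pt.top} := by
      intro a ha
      rcases h ha with rfl | h'
      · exact absurd ha hw
      · exact h'
    exact (Set.subset_singleton_iff_eq.1 hsub).resolve_left hn.ne_empty

/-- The algebras with a missing condition are representable. -/
theorem rwis {J : Set (Fin (k + 1))} {i0 : Fin (k + 1)} (h0 : i0 ∉ J) :
    RWIS (mul J) (imp (k := k)) := by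
  apply rep_of_lab (mul J) imp (lab J i0 h0) (fun a => a.1)
  · exact Subtype.val_injective
  · exact fun a => a.2.1
  · intro a b
    rfl
  · rintro a b ⟨u, h1, h2, -⟩
    exact ⟨h1, h2⟩
  · intro a b j ha hb haQ hbc u hu
    apply hu.2.2 j.1 j.2
    · exact eq_Qs a.2.1 a.2.2 ha haQ
    · exact (Set.subset_singleton_iff_eq.1 hbc).resolve_left hb.ne_empty
  · intro a b ha hb
    by_cases h : ∃ j ∈ J, a.1 = Qs j ∧ b.1 = {Pt.star}
    · right
      obtain ⟨j, hj, haQ, hbc⟩ := h
      refine ⟨⟨j, hj⟩, haQ.le, hbc.le, ?_⟩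
      intro u hu
      refine ⟨ha, hb, fun j' _ ha' _ => ?_⟩
      have : j = j' := Qs_inj (haQ.symm.trans ha')
      subst this
      exact hu
    · left
      apply Set.eq_univ_of_forall
      intro u
      refine ⟨ha, hb, fun j hj ha' hb' => ?_⟩
      exact absurd ⟨j, hj, ha', hb'⟩ h

section Fold

variable {A X : Type} [PartialOrder X] {mul' imp' : A → A → A}

/-- Iterated implication. -/
def imps (imp' : A → A → A) : List A → A → A
  | [], b => b
  | a :: l, b => imp' a (imps imp' l b)

theorem mem_imps {h : A → Set (X × X)} (hr : IsRep mul' imp' h) (l : List A) (b : A) (x y : X) :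
    (x, y) ∈ h (imps imp' l b) ↔
      ∀ x' y', x' ≤ x → y ≤ y' → (∀ a ∈ l, (x', y') ∈ h a) → (x', y') ∈ h b := by
  induction l generalizing x y with
  | nil =>
    constructor
    · intro hb x' y' hx hy _
      exact (isWeakening_iff _).1 (hr.weak b) x x' y y' hx hy hb
    · intro hb
      exact hb x y le_rfl le_rfl (by simp)
  | cons a l ih =>
    simp only [imps, hr.map_imp]
    constructor
    · intro hi x' y' hx hy hall
      have h1 : (x', y') ∈ h (imps imp' l b) :=
        hi x' y' ⟨hx, hy, hall a (by simp)⟩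
      exact (ih x' y').1 h1 x' y' le_rfl le_rfl (fun a' ha' => hall a' (by simp [ha']))
    · intro hi x' y' hxy
      obtain ⟨hx, hy, ha⟩ := hxy
      rw [ih]
      intro x'' y'' hx' hy' hall
      apply hi x'' y'' (hx'.trans hx) (hy.trans hy')
      intro a' ha'
      rcases List.mem_cons.1 ha' with rfl | h'
      · exact (isWeakening_iff _).1 (hr.weak a') x' x'' y' y'' hx' hy' ha
      · exact hall a' h'

end Fold

theorem mem_imps_car (l : List (Car k)) (b : Car k) (u : Pt k) :
    u ∈ (imps imp l b).1 ↔ ∀ u', u ≤ u' → (∀ a ∈ l, u' ∈ a.1) → u' ∈ b.1 := by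
  induction l generalizing u with
  | nil =>
    constructor
    · intro hb u' hu _
      exact b.2.1 hu hb
    · intro hb
      exact hb u le_rfl (by simp)
  | cons a l ih =>
    simp only [imps, imp_val]
    constructor
    · intro hi u' hu hall
      have h1 : u' ∈ (imps imp l b).1 := hi u' hu (hall a (by simp))
      exact (ih u').1 h1 u' le_rfl (fun a' ha' => hall a' (by simp [ha']))
    · intro hi u' hu ha
      rw [ih]
      intro u'' hu' hall
      apply hi u'' (hu.trans hu')
      intro a' ha'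
      rcases List.mem_cons.1 ha' with rfl | h'
      · exact a'.2.1 hu' ha
      · exact hall a' h'

theorem imp_zero_zero : imp (zero : Car k) zero = one := by
  apply Subtype.ext
  apply Set.eq_univ_of_forall
  intro u u' _ h
  exact h

theorem zero_ne_one : (zero : Car k) ≠ one := by
  intro h
  have : Pt.star ∈ (zero : Car k).1 := by rw [h]; exact Set.mem_univ _
  exact this

theorem one_mul_zero (J : Set (Fin (k + 1))) : mul J (one : Car k) zero = zero := by
  apply Subtype.ext
  apply Set.eq_empty_of_forall_notMem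
  rintro u ⟨-, h, -⟩
  exact h.ne_empty rfl

theorem zero_mul_one (J : Set (Fin (k + 1))) : mul J (zero : Car k) one = zero := by
  apply Subtype.ext
  apply Set.eq_empty_of_forall_notMem
  rintro u ⟨h, -, -⟩
  exact h.ne_empty rfl

theorem cc_mul_one (J : Set (Fin (k + 1))) : mul J (cc : Car k) one = one := by
  apply Subtype.ext
  apply Set.eq_univ_of_forall
  intro u
  refine ⟨⟨Pt.star, rfl⟩, ⟨Pt.star, Set.mem_univ _⟩, fun j hj h => ?_⟩
  exfalso
  have : Pt.star ∈ (Qs j : Set (Pt k)) := by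
    rw [← h]
    rfl
  simp [Qs] at this

theorem q_mul_cc (j : Fin (k + 1)) : mul Set.univ (q j) cc = pp j := by
  apply Subtype.ext
  ext u
  constructor
  · rintro ⟨-, -, h⟩
    exact h j (Set.mem_univ _) rfl rfl
  · intro hu
    refine ⟨⟨Pt.top, by simp [q, Qs]⟩, ⟨Pt.star, rfl⟩, fun j' _ h _ => ?_⟩
    have : j = j' := Qs_inj h
    subst this
    exact hu

/-- The algebras with all conditions are not representable. -/
theorem not_rwis : ¬ RWIS (mul (Set.univ : Set (Fin (k + 1)))) (imp (k := k)) := by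
  rintro ⟨X, iX, h, hr⟩
  have h1 : ∀ x y : X, (x, y) ∈ h one := by
    intro x y
    rw [← imp_zero_zero, hr.map_imp]
    rintro x' y' ⟨-, -, h'⟩
    exact h'
  have h0 : ∀ x y : X, (x, y) ∉ h zero := by
    intro x y hxy
    apply zero_ne_one (k := k)
    apply hr.inj
    ext ⟨u, v⟩
    refine ⟨fun _ => h1 u v, fun _ => ?_⟩
    have h2 : (u, y) ∈ h zero := by
      rw [← one_mul_zero Set.univ, hr.map_mul]
      exact ⟨x, h1 u x, hxy⟩
    rw [← zero_mul_one Set.univ, hr.map_mul]
    exact ⟨y, h2, h1 y v⟩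
  -- a pair in all `Q j`
  have h2 : imps imp ((List.finRange (k + 1)).map q) (zero : Car k) ≠ one := by
    intro he
    have ht : Pt.top ∈ (imps imp ((List.finRange (k + 1)).map q) (zero : Car k)).1 := by
      rw [he]; exact Set.mem_univ _
    rw [mem_imps_car] at ht
    refine ht Pt.top le_rfl ?_
    intro a ha
    rw [List.mem_map] at ha
    obtain ⟨j, -, rfl⟩ := ha
    simp [q, Qs]
  have h3 : ∃ x y : X, ∀ j, (x, y) ∈ h (q j) := by
    by_contra hcon
    push Not at hcon
    apply h2
    apply hr.inj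
    ext ⟨u, v⟩
    refine ⟨fun _ => h1 u v, fun _ => ?_⟩
    rw [mem_imps hr]
    intro x' y' _ _ hall
    obtain ⟨j, hj⟩ := hcon x' y'
    exact absurd (hall (q j) (List.mem_map.2 ⟨j, List.mem_finRange j, rfl⟩)) hj
  obtain ⟨x, y, hxy⟩ := h3
  obtain ⟨z, hz, -⟩ : ∃ z, (y, z) ∈ h cc ∧ (z, y) ∈ h one := by
    have := h1 y y
    rw [← cc_mul_one Set.univ, hr.map_mul] at this
    exact this
  have h4 : ∀ j, (x, z) ∈ h (pp j) := by
    intro j
    rw [← q_mul_cc, hr.map_mul]
    exact ⟨y, hxy j, hz⟩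
  have h5 : imps imp ((List.finRange (k + 1)).map pp) (zero : Car k) = one := by
    apply Subtype.ext
    apply Set.eq_univ_of_forall
    intro u
    rw [mem_imps_car]
    intro u' _ hall
    exfalso
    have hj : ∀ j, u' ∈ (Ps j : Set (Pt k)) := fun j =>
      hall (pp j) (List.mem_map.2 ⟨j, List.mem_finRange j, rfl⟩)
    obtain ⟨i, -, hi⟩ := hj 0
    obtain ⟨i', hne, hi'⟩ := hj i
    rw [hi] at hi'
    apply hne
    cases hi'
    rfl
  have h6 : (x, z) ∈ h (imps imp ((List.finRange (k + 1)).map pp) (zero : Car k)) := by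
    rw [h5]; exact h1 x z
  rw [mem_imps hr] at h6
  refine h0 x z (h6 x z le_rfl le_rfl ?_)
  intro a ha
  rw [List.mem_map] at ha
  obtain ⟨j, -, rfl⟩ := ha
  exact h4 j

end Car

end Pool.Agent.R619.Wis
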