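import Mathlib
import Pool.Agent.R619.Wis.Defs

/-!
The point algebra is a finite representable weakening implication semigroup without finite
representation.
-/

namespace Pool.Agent.R619.Wis.FRP

/-- The carrier of the point algebra: subsets of `{<, =, >}`. -/
abbrev PA : Type := Bool × Bool × Bool

/-- Composition. -/
def mul (a b : PA) : PA :=
  ((a.1 && b.1) || (a.1 && b.2.1) || (a.1 && b.2.2) || (a.2.1 && b.1) || (a.2.2 && b.1),
   (a.1 && b.2.2) || (a.2.2 && b.1) || (a.2.1 && b.2.1),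
   (a.1 && b.2.2) || (a.2.1 && b.2.2) || (a.2.2 && b.1) || (a.2.2 && b.2.1) || (a.2.2 && b.2.2))

/-- Implication. -/
def imp (a b : PA) : PA := (!a.1 || b.1, !a.2.1 || b.2.1, !a.2.2 || b.2.2)

/-- The rational numbers with the discrete order. -/
structure DQ : Type where
  val : ℚ

instance : PartialOrder DQ where
  le a b := a = b
  le_refl _ := rfl
  le_trans _ _ _ h1 h2 := h1.trans h2
  le_antisymm _ _ h _ := h

theorem DQ.le_iff {a b : DQ} : a ≤ b ↔ a = b := Iff.rfl

/-- The representation. -/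
def rep (a : PA) : Set (DQ × DQ) :=
  {p | (p.1.val < p.2.val ∧ a.1 = true) ∨ (p.1.val = p.2.val ∧ a.2.1 = true) ∨
    (p.2.val < p.1.val ∧ a.2.2 = true)}

theorem mem_rep_lt {a : PA} {x y : DQ} (h : x.val < y.val) : (x, y) ∈ rep a ↔ a.1 = true := by
  constructor
  · rintro (h' | h' | h')
    · exact h'.2
    · exact absurd h'.1 h.ne
    · exact absurd h'.1 h.asymm
  · intro h'
    exact Or.inl ⟨h, h'⟩

theorem mem_rep_eq {a : PA} {x y : DQ} (h : x.val = y.val) : (x, y) ∈ rep a ↔ a.2.1 = true := by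
  constructor
  · rintro (h' | h' | h')
    · exact absurd h h'.1.ne
    · exact h'.2
    · exact absurd h h'.1.ne'
  · intro h'
    exact Or.inr (Or.inl ⟨h, h'⟩)

theorem mem_rep_gt {a : PA} {x y : DQ} (h : y.val < x.val) : (x, y) ∈ rep a ↔ a.2.2 = true := by
  constructor
  · rintro (h' | h' | h')
    · exact absurd h'.1 h.asymm
    · exact absurd h'.1 h.ne'
    · exact h'.2
  · intro h'
    exact Or.inr (Or.inr ⟨h, h'⟩)

theorem rep_mul (a b : PA) : rep (mul a b) = comp (rep a) (rep b) := by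
  ext ⟨x, z⟩
  constructor
  · intro h
    rcases lt_trichotomy x.val z.val with hxz | hxz | hxz
    · rw [mem_rep_lt hxz] at h
      simp only [mul, Bool.or_eq_true, Bool.and_eq_true] at h
      rcases h with (((h | h) | h) | h) | h
      · obtain ⟨y, h1, h2⟩ := exists_between hxz
        exact ⟨⟨y⟩, (mem_rep_lt h1).2 h.1, (mem_rep_lt h2).2 h.2⟩
      · exact ⟨z, (mem_rep_lt hxz).2 h.1, (mem_rep_eq rfl).2 h.2⟩
      · obtain ⟨y, h1⟩ := exists_gt z.val
        exact ⟨⟨y⟩, (mem_rep_lt (hxz.trans h1)).2 h.1, (mem_rep_gt h1).2 h.2⟩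
      · exact ⟨x, (mem_rep_eq rfl).2 h.1, (mem_rep_lt hxz).2 h.2⟩
      · obtain ⟨y, h1⟩ := exists_lt x.val
        exact ⟨⟨y⟩, (mem_rep_gt h1).2 h.1, (mem_rep_lt (h1.trans hxz)).2 h.2⟩
    · rw [mem_rep_eq hxz] at h
      simp only [mul, Bool.or_eq_true, Bool.and_eq_true] at h
      rcases h with (h | h) | h
      · obtain ⟨y, h1⟩ := exists_gt x.val
        exact ⟨⟨y⟩, (mem_rep_lt h1).2 h.1, (mem_rep_gt (hxz ▸ h1)).2 h.2⟩
      · obtain ⟨y, h1⟩ := exists_lt x.val
        exact ⟨⟨y⟩, (mem_rep_gt h1).2 h.1, (mem_rep_lt (hxz ▸ h1)).2 h.2⟩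
      · exact ⟨x, (mem_rep_eq rfl).2 h.1, (mem_rep_eq hxz).2 h.2⟩
    · rw [mem_rep_gt hxz] at h
      simp only [mul, Bool.or_eq_true, Bool.and_eq_true] at h
      rcases h with (((h | h) | h) | h) | h
      · obtain ⟨y, h1⟩ := exists_gt x.val
        exact ⟨⟨y⟩, (mem_rep_lt h1).2 h.1, (mem_rep_gt (hxz.trans h1)).2 h.2⟩
      · exact ⟨x, (mem_rep_eq rfl).2 h.1, (mem_rep_gt hxz).2 h.2⟩
      · obtain ⟨y, h1⟩ := exists_lt z.val
        exact ⟨⟨y⟩, (mem_rep_gt (h1.trans hxz)).2 h.1, (mem_rep_lt h1).2 h.2⟩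
      · exact ⟨z, (mem_rep_gt hxz).2 h.1, (mem_rep_eq rfl).2 h.2⟩
      · obtain ⟨y, h1, h2⟩ := exists_between hxz
        exact ⟨⟨y⟩, (mem_rep_gt h2).2 h.1, (mem_rep_gt h1).2 h.2⟩
  · rintro ⟨y, h1, h2⟩
    change (x, y) ∈ rep a at h1
    change (y, z) ∈ rep b at h2
    rcases lt_trichotomy x.val y.val with hxy | hxy | hxy
    · rw [mem_rep_lt hxy] at h1
      rcases lt_trichotomy y.val z.val with hyz | hyz | hyz
      · rw [mem_rep_lt hyz] at h2
        rw [mem_rep_lt (hxy.trans hyz)]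
        simp [mul, h1, h2]
      · rw [mem_rep_eq hyz] at h2
        rw [mem_rep_lt (hyz ▸ hxy)]
        simp [mul, h1, h2]
      · rw [mem_rep_gt hyz] at h2
        rcases lt_trichotomy x.val z.val with hxz | hxz | hxz
        · rw [mem_rep_lt hxz]; simp [mul, h1, h2]
        · rw [mem_rep_eq hxz]; simp [mul, h1, h2]
        · rw [mem_rep_gt hxz]; simp [mul, h1, h2]
    · rw [mem_rep_eq hxy] at h1
      rcases lt_trichotomy y.val z.val with hyz | hyz | hyz
      · rw [mem_rep_lt hyz] at h2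
        rw [mem_rep_lt (hxy ▸ hyz)]
        simp [mul, h1, h2]
      · rw [mem_rep_eq hyz] at h2
        rw [mem_rep_eq (hxy.trans hyz)]
        simp [mul, h1, h2]
      · rw [mem_rep_gt hyz] at h2
        rw [mem_rep_gt (hxy ▸ hyz)]
        simp [mul, h1, h2]
    · rw [mem_rep_gt hxy] at h1
      rcases lt_trichotomy y.val z.val with hyz | hyz | hyz
      · rw [mem_rep_lt hyz] at h2
        rcases lt_trichotomy x.val z.val with hxz | hxz | hxz
        · rw [mem_rep_lt hxz]; simp [mul, h1, h2]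
        · rw [mem_rep_eq hxz]; simp [mul, h1, h2]
        · rw [mem_rep_gt hxz]; simp [mul, h1, h2]
      · rw [mem_rep_eq hyz] at h2
        rw [mem_rep_gt (hyz ▸ hxy)]
        simp [mul, h1, h2]
      · rw [mem_rep_gt hyz] at h2
        rw [mem_rep_gt (hyz.trans hxy)]
        simp [mul, h1, h2]

theorem rep_imp (a b : PA) : rep (imp a b) = impl (rep a) (rep b) := by
  ext ⟨x, y⟩
  have h1 : (x, y) ∈ impl (rep a) (rep b) ↔ ((x, y) ∈ rep a → (x, y) ∈ rep b) := by
    constructor
    · intro h ha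
      exact h x y ⟨le_rfl, le_rfl, ha⟩
    · rintro h x' y' ⟨hx, hy, ha⟩
      rw [DQ.le_iff] at hx hy
      simp only at hx hy
      subst hx hy
      exact h ha
  rw [h1]
  rcases lt_trichotomy x.val y.val with hxy | hxy | hxy
  · rw [mem_rep_lt hxy, mem_rep_lt hxy, mem_rep_lt hxy]
    cases h : a.1 <;> cases h' : b.1 <;> simp [imp, h, h']
  · rw [mem_rep_eq hxy, mem_rep_eq hxy, mem_rep_eq hxy]
    cases h : a.2.1 <;> cases h' : b.2.1 <;> simp [imp, h, h']
  · rw [mem_rep_gt hxy, mem_rep_gt hxy, mem_rep_gt hxy]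
    cases h : a.2.2 <;> cases h' : b.2.2 <;> simp [imp, h, h']

theorem rwis : RWIS mul imp := by
  refine ⟨DQ, inferInstance, rep, ?_, ?_, rep_mul, rep_imp⟩
  · intro a b hab
    have h1 : (⟨0⟩, ⟨1⟩) ∈ rep a ↔ (⟨0⟩, ⟨1⟩) ∈ rep b := by rw [hab]
    have h2 : (⟨0⟩, ⟨0⟩) ∈ rep a ↔ (⟨0⟩, ⟨0⟩) ∈ rep b := by rw [hab]
    have h3 : (⟨1⟩, ⟨0⟩) ∈ rep a ↔ (⟨1⟩, ⟨0⟩) ∈ rep b := by rw [hab]
    rw [mem_rep_lt (by norm_num), mem_rep_lt (by norm_num)] at h1
    rw [mem_rep_eq rfl, mem_rep_eq rfl] at h2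
    rw [mem_rep_gt (by norm_num), mem_rep_gt (by norm_num)] at h3
    obtain ⟨a1, a2, a3⟩ := a
    obtain ⟨b1, b2, b3⟩ := b
    simp only at h1 h2 h3
    rw [Bool.eq_iff_iff.2 h1, Bool.eq_iff_iff.2 h2, Bool.eq_iff_iff.2 h3]
  · intro a
    rw [isWeakening_iff]
    intro x x' y y' hx hy h
    rw [DQ.le_iff] at hx hy
    rw [hx, ← hy]
    exact h

/-- In a finite type, a transitive relation that can always be continued has a loop. -/
theorem loop {X : Type} [Finite X] (T : X → X → Prop) (hT : ∀ a b c, T a b → T b c → T a c)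
    (Q : X → Prop) (hQ : ∀ a, Q a → ∃ b, T a b ∧ Q b) (a : X) (ha : Q a) :
    ∃ g, Q g ∧ T a g ∧ T g g := by
  by_contra hcon
  push Not at hcon
  let Y := {g : X // Q g ∧ T a g}
  let r : Y → Y → Prop := fun u v => T v.1 u.1
  haveI : Std.Irrefl r := ⟨fun u hu => hcon u.1 u.2.1 u.2.2 hu⟩
  haveI : IsTrans Y r := ⟨fun u v w h1 h2 => hT _ _ _ h2 h1⟩
  have hwf : WellFounded r := Finite.wellFounded_of_trans_of_irrefl r
  obtain ⟨b, hb1, hb2⟩ := hQ a ha
  have hne : (Set.univ : Set Y).Nonempty := ⟨⟨b, hb2, hb1⟩, trivial⟩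
  obtain ⟨m, -, hm⟩ := hwf.has_min Set.univ hne
  obtain ⟨c, hc1, hc2⟩ := hQ m.1 m.2.1
  exact hm ⟨c, hc2, hT _ _ _ m.2.2 hc1⟩ trivial hc1

theorem not_finRWIS : ¬ FinRWIS mul imp := by
  rintro ⟨X, iX, h, hfin, hr⟩
  have h1 : ∀ x y : X, (x, y) ∈ h (true, true, true) := by
    intro x y
    have e : ((true, true, true) : PA) = imp (false, false, false) (false, false, false) := rfl
    rw [e, hr.map_imp]
    rintro x' y' ⟨-, -, h'⟩
    exact h'
  have h0 : ∀ x y : X, (x, y) ∉ h (false, false, false) := by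
    intro x y hxy
    have hne : ((false, false, false) : PA) ≠ (true, true, true) := by decide
    apply hne
    apply hr.inj
    ext ⟨u, v⟩
    refine ⟨fun _ => h1 u v, fun _ => ?_⟩
    have e1 : ((false, false, false) : PA) = mul (true, true, true) (false, false, false) := rfl
    have e2 : ((false, false, false) : PA) = mul (false, false, false) (true, true, true) := rfl
    have h2 : (u, y) ∈ h (false, false, false) := by
      rw [e1, hr.map_mul]
      exact ⟨x, h1 u x, hxy⟩
    rw [e2, hr.map_mul]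
    exact ⟨y, h2, h1 y v⟩
  -- disjointness of `=` and `<`
  have hdis : ∀ x y : X, (x, y) ∈ h (true, false, false) → (x, y) ∉ h (false, true, false) := by
    intro x y hl he
    have e1 : ((true, true, true) : PA) = imp (true, false, false) (true, false, true) := rfl
    have e2 : ((true, false, true) : PA) = imp (false, true, false) (false, false, false) := rfl
    have h2 : (x, y) ∈ h (true, false, true) := by
      have := h1 x y
      rw [e1, hr.map_imp] at this
      exact this x y ⟨le_rfl, le_rfl, hl⟩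
    rw [e2, hr.map_imp] at h2
    exact h0 x y (h2 x y ⟨le_rfl, le_rfl, he⟩)
  have hll : comp (h (true, false, false)) (h (true, false, false)) = h (true, false, false) := by
    rw [← hr.map_mul]; rfl
  have hee : comp (h (false, true, false)) (h (false, true, false)) = h (false, true, false) := by
    rw [← hr.map_mul]; rfl
  have hle : comp (h (true, false, false)) (h (false, true, false)) = h (true, false, false) := by
    rw [← hr.map_mul]; rfl
  have hel : comp (h (false, true, false)) (h (true, false, false)) = h (true, false, false) := by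
    rw [← hr.map_mul]; rfl
  have tl : ∀ a b c : X, (a, b) ∈ h (true, false, false) → (b, c) ∈ h (true, false, false) →
      (a, c) ∈ h (true, false, false) := by
    intro a b c h2 h3
    rw [← hll]; exact ⟨b, h2, h3⟩
  have te : ∀ a b c : X, (a, b) ∈ h (false, true, false) → (b, c) ∈ h (false, true, false) →
      (a, c) ∈ h (false, true, false) := by
    intro a b c h2 h3
    rw [← hee]; exact ⟨b, h2, h3⟩
  have tle : ∀ a b c : X, (a, b) ∈ h (true, false, false) → (b, c) ∈ h (false, true, false) →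
      (a, c) ∈ h (true, false, false) := by
    intro a b c h2 h3
    rw [← hle]; exact ⟨b, h2, h3⟩
  have tel : ∀ a b c : X, (a, b) ∈ h (false, true, false) → (b, c) ∈ h (true, false, false) →
      (a, c) ∈ h (true, false, false) := by
    intro a b c h2 h3
    rw [← hel]; exact ⟨b, h2, h3⟩
  -- interpolation by loops
  have hint : ∀ x z : X, (x, z) ∈ h (true, false, false) → ∃ g : X,
      (x, g) ∈ h (true, false, false) ∧ (g, g) ∈ h (false, true, false) ∧
        (g, z) ∈ h (true, false, false) := by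
    intro x z hxz
    rw [← hle] at hxz
    obtain ⟨b, hxb, hbz⟩ := hxz
    rw [← hll] at hxb
    -- start over with three factors
    obtain ⟨c, hxc, hcb⟩ := hxb
    have hcz : (c, z) ∈ h (true, false, false) := tle c b z hcb hbz
    rw [← hel] at hcz
    obtain ⟨d, hcd, hdz⟩ := hcz
    have hQ : ∀ u, (u, d) ∈ h (false, true, false) →
        ∃ v, (u, v) ∈ h (false, true, false) ∧ (v, d) ∈ h (false, true, false) := by
      intro u hu
      rw [← hee] at hu
      exact hu
    obtain ⟨g, hg1, hg2, hg3⟩ := loop (fun u v => (u, v) ∈ h (false, true, false)) te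
      (fun u => (u, d) ∈ h (false, true, false)) hQ c hcd
    exact ⟨g, tle x c g hxc hg2, hg3, tel g d z hg1 hdz⟩
  -- `<` is nonempty
  have hne : ∃ x z : X, (x, z) ∈ h (true, false, false) := by
    by_contra hcon
    push Not at hcon
    have hne : ((true, false, false) : PA) ≠ (false, false, false) := by decide
    apply hne
    apply hr.inj
    ext ⟨u, v⟩
    exact ⟨fun h' => absurd h' (hcon u v), fun h' => absurd h' (h0 u v)⟩
  obtain ⟨x, z, hxz⟩ := hne
  obtain ⟨g, hg1, hg2, hg3⟩ := hint x z hxz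
  obtain ⟨g', hg1', hg2', hg3'⟩ := loop (fun u v => (u, v) ∈ h (true, false, false)) tl
    (fun u => (u, u) ∈ h (false, true, false) ∧ (u, z) ∈ h (true, false, false))
    (by
      rintro a ⟨ha1, ha2⟩
      obtain ⟨b, hb1, hb2, hb3⟩ := hint a z ha2
      exact ⟨b, hb1, hb2, hb3⟩) g ⟨hg2, hg3⟩
  exact hdis g' g' hg3' hg1'.1

end Pool.Agent.R619.Wis.FRP
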