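import Mathlib
import Pool.Agent.R619.Wis.Alg

/-!
The ultraproduct argument: representable weakening implication semigroups are not finitely
axiomatisable.
-/

namespace Pool.Agent.R619.Wis

open FirstOrder FirstOrder.Language

/-- The two binary function symbols. -/
inductive WFn : ℕ → Type
  | mul : WFn 2
  | imp : WFn 2

/-- The language with two binary function symbols `;` and `→` and nothing else. -/
def LW : FirstOrder.Language.{0, 0} := ⟨WFn, fun _ => Empty⟩

/-- The symbol for composition. -/
def fMul : LW.Functions 2 := WFn.mul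

/-- The symbol for implication. -/
def fImp : LW.Functions 2 := WFn.imp

/-- The composition of a structure. -/
def mulOf (A : Type) [LW.Structure A] (a b : A) : A := Structure.funMap fMul ![a, b]

/-- The implication of a structure. -/
def impOf (A : Type) [LW.Structure A] (a b : A) : A := Structure.funMap fImp ![a, b]

/-- The class of representable weakening implication semigroups is finitely axiomatisable. -/
def FinitelyAxiomatisable : Prop :=
  ∃ T : Set LW.Sentence, T.Finite ∧ ∀ (A : Type) [LW.Structure A] [Nonempty A],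
    (∀ φ ∈ T, A ⊨ φ) ↔ RWIS (mulOf A) (impOf A)

/-- The structures with all conditions. -/
def A1 (k : ℕ) : Type := Car k

/-- The structures with a missing condition. -/
def A2 (l : Σ k : ℕ, Fin (k + 1)) : Type := Car l.1

instance (k : ℕ) : LW.Structure (A1 k) where
  funMap := fun {n} f => match n, f with
    | _, WFn.mul => fun v => Car.mul (k := k) Set.univ (v 0) (v 1)
    | _, WFn.imp => fun v => Car.imp (k := k) (v 0) (v 1)
  RelMap := fun {_} r => Empty.elim r

instance (l : Σ k : ℕ, Fin (k + 1)) : LW.Structure (A2 l) where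
  funMap := fun {n} f => match n, f with
    | _, WFn.mul => fun v => Car.mul (k := l.1) {l.2}ᶜ (v 0) (v 1)
    | _, WFn.imp => fun v => Car.imp (k := l.1) (v 0) (v 1)
  RelMap := fun {_} r => Empty.elim r

instance (k : ℕ) : Nonempty (A1 k) := ⟨Car.zero (k := k)⟩

instance (l : Σ k : ℕ, Fin (k + 1)) : Nonempty (A2 l) := ⟨Car.zero (k := l.1)⟩

theorem A1_not (k : ℕ) : ¬ RWIS (mulOf (A1 k)) (impOf (A1 k)) := Car.not_rwis (k := k)

theorem A2_rwis (l : Σ k : ℕ, Fin (k + 1)) : RWIS (mulOf (A2 l)) (impOf (A2 l)) :=
  Car.rwis (k := l.1) (J := {l.2}ᶜ) (i0 := l.2) (fun h => h rfl)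

/-- The family of sets that the ultrafilter should contain. -/
def avoid (f : ∀ k : ℕ, Fin (k + 1)) : Set (Σ k : ℕ, Fin (k + 1)) := {l | l.2 ≠ f l.1}

theorem exists_ultra : ∃ V : Ultrafilter (Σ k : ℕ, Fin (k + 1)), ∀ f, avoid f ∈ V := by
  classical
  have hne : (Filter.generate (Set.range avoid)).NeBot := by
    rw [Filter.generate_neBot_iff]
    intro t ht hfin
    obtain ⟨s, hs⟩ : ∃ s : Finset (∀ k : ℕ, Fin (k + 1)), t = avoid '' (s : Set _) := by
      have := Set.subset_range_iff_exists_image_eq.1 ht
      obtain ⟨t', ht'⟩ := this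
      -- choose finitely many preimages
      have hsurj : Set.SurjOn avoid t' t := by
        rw [← ht']; exact Set.surjOn_image _ _
      obtain ⟨u, -, huf, hu⟩ := hfin.exists_finset_coe.elim (fun w hw => by
        have : ∀ x ∈ t, ∃ y ∈ t', avoid y = x := fun x hx => hsurj hx
        choose! g hg1 hg2 using this
        exact (⟨g '' t, by
          rintro _ ⟨x, hx, rfl⟩; exact hg1 x hx, hfin.image g, by
          ext x
          constructor
          · intro hx
            exact ⟨g x, ⟨x, hx, rfl⟩, hg2 x hx⟩
          · rintro ⟨_, ⟨y, hy, rfl⟩, rfl⟩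
            rw [hg2 y hy]; exact hy⟩ : ∃ u : Set (∀ k : ℕ, Fin (k + 1)), u ⊆ t' ∧ u.Finite ∧
              t = avoid '' u))
      exact ⟨huf.toFinset, by simpa using hu⟩
    -- a number `k` larger than the number of functions
    let k := s.card
    let bad : Finset (Fin (k + 1)) := s.image (fun f => f k)
    have hcard : bad.card < Fintype.card (Fin (k + 1)) := by
      have := Finset.card_image_le (s := s) (f := fun f => f k)
      rw [Fintype.card_fin]
      exact Nat.lt_succ_of_le this
    obtain ⟨i, hi⟩ : ∃ i, i ∉ bad := by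
      by_contra hcon
      push Not at hcon
      have : bad = Finset.univ := Finset.eq_univ_of_forall hcon
      rw [this, Finset.card_univ] at hcard
      exact lt_irrefl _ hcard
    refine ⟨⟨k, i⟩, ?_⟩
    rw [Set.mem_sInter, hs]
    rintro _ ⟨f, hf, rfl⟩
    intro heq
    apply hi
    rw [Finset.mem_image]
    exact ⟨f, hf, heq.symm⟩
  refine ⟨Ultrafilter.of (Filter.generate (Set.range avoid)), fun f => ?_⟩
  exact Ultrafilter.of_le _ (Filter.mem_generate_of_mem ⟨f, rfl⟩)

theorem mulOf_mk {α : Type} (M : α → Type) [∀ i, LW.Structure (M i)] (u : Ultrafilter α)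
    (a b : ∀ i, M i) :
    mulOf ((u : Filter α).Product M) (Quotient.mk'' a) (Quotient.mk'' b) =
      Quotient.mk'' (fun i => mulOf (M i) (a i) (b i)) := by
  have h := Ultraproduct.funMap_cast (L := LW) (M := M) (u := u) (n := 2) fMul ![a, b]
  have e1 : (![Quotient.mk'' a, Quotient.mk'' b] : Fin 2 → (u : Filter α).Product M) =
      fun i => ((![a, b] i : ∀ i, M i) : (u : Filter α).Product M) := by
    funext i; fin_cases i <;> rfl
  refine Eq.trans (congrArg (Structure.funMap fMul) e1) (h.trans ?_)
  apply congrArg (fun x => (Quotient.mk'' x : (u : Filter α).Product M))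
  funext i
  apply congrArg (Structure.funMap fMul)
  funext j; fin_cases j <;> rfl

theorem impOf_mk {α : Type} (M : α → Type) [∀ i, LW.Structure (M i)] (u : Ultrafilter α)
    (a b : ∀ i, M i) :
    impOf ((u : Filter α).Product M) (Quotient.mk'' a) (Quotient.mk'' b) =
      Quotient.mk'' (fun i => impOf (M i) (a i) (b i)) := by
  have h := Ultraproduct.funMap_cast (L := LW) (M := M) (u := u) (n := 2) fImp ![a, b]
  have e1 : (![Quotient.mk'' a, Quotient.mk'' b] : Fin 2 → (u : Filter α).Product M) =
      fun i => ((![a, b] i : ∀ i, M i) : (u : Filter α).Product M) := by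
    funext i; fin_cases i <;> rfl
  refine Eq.trans (congrArg (Structure.funMap fImp) e1) (h.trans ?_)
  apply congrArg (fun x => (Quotient.mk'' x : (u : Filter α).Product M))
  funext i
  apply congrArg (Structure.funMap fImp)
  funext j; fin_cases j <;> rfl

/-- The two products agree away from one index. -/
theorem mul_agree (k : ℕ) (a b : Car k) :
    ∃ j0 : Fin (k + 1), ∀ j, j ≠ j0 → Car.mul Set.univ a b = Car.mul {j}ᶜ a b := by
  by_cases h : ∃ j0, a.1 = Car.Qs j0
  · obtain ⟨j0, hj0⟩ := h
    refine ⟨j0, fun j hj => ?_⟩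
    apply Subtype.ext
    ext u
    constructor
    · rintro ⟨h1, h2, h3⟩
      exact ⟨h1, h2, fun i _ => h3 i (Set.mem_univ _)⟩
    · rintro ⟨h1, h2, h3⟩
      refine ⟨h1, h2, fun i _ hi => ?_⟩
      have : j0 = i := Car.Qs_inj (hj0.symm.trans hi)
      subst this
      exact h3 j0 (fun h' => hj (Set.mem_singleton_iff.1 h').symm) hi
  · refine ⟨0, fun j _ => ?_⟩
    apply Subtype.ext
    ext u
    constructor
    · rintro ⟨h1, h2, h3⟩
      exact ⟨h1, h2, fun i _ => h3 i (Set.mem_univ _)⟩
    · rintro ⟨h1, h2, h3⟩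
      exact ⟨h1, h2, fun i _ hi => absurd ⟨i, hi⟩ h⟩

theorem not_finitelyAxiomatisable : ¬ FinitelyAxiomatisable := by
  classical
  rintro ⟨T, hT, hA⟩
  obtain ⟨V, hV⟩ := exists_ultra
  let U : Ultrafilter ℕ := V.map Sigma.fst
  -- the first ultraproduct is not representable
  have h1 : ¬ RWIS (mulOf ((U : Filter ℕ).Product A1)) (impOf ((U : Filter ℕ).Product A1)) := by
    intro h
    rw [← hA] at h
    have h2 : ∀ φ ∈ T, ∀ᶠ k in (U : Filter ℕ), A1 k ⊨ φ :=
      fun φ hφ => (Ultraproduct.sentence_realize φ).1 (h φ hφ)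
    have h3 : ∀ᶠ k in (U : Filter ℕ), ∀ φ ∈ T, A1 k ⊨ φ := by
      rw [Filter.eventually_all_finite hT]
      exact h2
    obtain ⟨k, hk⟩ := h3.exists
    exact A1_not k ((hA (A1 k)).1 hk)
  -- the second ultraproduct is representable
  have h2 : RWIS (mulOf ((V : Filter (Σ k : ℕ, Fin (k + 1))).Product A2))
      (impOf ((V : Filter (Σ k : ℕ, Fin (k + 1))).Product A2)) := by
    rw [← hA]
    intro φ hφ
    rw [Ultraproduct.sentence_realize]
    exact Filter.Eventually.of_forall (fun l => (hA (A2 l)).2 (A2_rwis l) φ hφ)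
  apply h1
  let e0 : (∀ k, A1 k) → (∀ l, A2 l) := fun a l => a l.1
  let e : (U : Filter ℕ).Product A1 → (V : Filter (Σ k : ℕ, Fin (k + 1))).Product A2 :=
    Quotient.map' e0 (fun a b hab => hab)
  have he : ∀ a : ∀ k, A1 k, e (Quotient.mk'' a) = Quotient.mk'' (e0 a) := fun a => rfl
  refine RWIS.of_embedding e ?_ ?_ ?_ h2
  · intro x y
    induction x using Quotient.inductionOn' with | h a => ?_
    induction y using Quotient.inductionOn' with | h b => ?_
    intro hab
    have hab' : (Quotient.mk'' (e0 a) : (V : Filter (Σ k : ℕ, Fin (k + 1))).Product A2) =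
        Quotient.mk'' (e0 b) := hab
    have h3 := Quotient.eq''.1 hab'
    exact Quotient.eq''.2 h3
  · intro x y
    induction x using Quotient.inductionOn' with | h a => ?_
    induction y using Quotient.inductionOn' with | h b => ?_
    rw [he, he, mulOf_mk A2 V (e0 a) (e0 b)]
    have e1 := mulOf_mk A1 U a b
    erw [e1, he]
    apply Quotient.sound'
    choose f hf using fun k => mul_agree k (a k) (b k)
    refine Filter.mem_of_superset (hV f) ?_
    intro l hl
    exact hf l.1 l.2 hl
  · intro x y
    induction x using Quotient.inductionOn' with | h a => ?_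
    induction y using Quotient.inductionOn' with | h b => ?_
    rw [he, he, impOf_mk A2 V (e0 a) (e0 b)]
    have e1 := impOf_mk A1 U a b
    erw [e1, he]
    rfl

end Pool.Agent.R619.Wis
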